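import Pool.Agent.L5helper59.DM.Defs

/-!
# Moving a finite set of points
-/

set_option autoImplicit false

open MvPolynomial Filter Topology

namespace Pool.Agent.L5helper59.DM

/-- D11: a finite set of points, each of which has nearby points with a property for all large
`k`, can be moved for some `k` -/
theorem move_points {ι : Type} [Fintype ι] [DecidableEq ι] (S : Finset (ι → ℂ))
    (Q : ℕ → (ι → ℂ) → Prop)
    (h : ∀ p ∈ S, ∀ ε : ℝ, 0 < ε → ∀ᶠ k in atTop, ∃ p' : ι → ℂ, (∀ i, ‖p' i - p i‖ ≤ ε) ∧ Q k p') :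
    ∃ K, ∀ k ≥ K, ∃ S' : Finset (ι → ℂ), S'.card = S.card ∧ ∀ p ∈ S', Q k p := by
  classical
  obtain ⟨δ, hδ, hsep⟩ : ∃ δ : ℝ, 0 < δ ∧ ∀ p ∈ S, ∀ q ∈ S, p ≠ q → δ ≤ dist p q := by
    by_cases hne : S.offDiag.Nonempty
    · obtain ⟨x, hx, hmin⟩ := S.offDiag.exists_min_image (fun y => dist y.1 y.2) hne
      obtain ⟨hx1, hx2, hx3⟩ := Finset.mem_offDiag.1 hx
      exact ⟨dist x.1 x.2, dist_pos.2 hx3, fun p hp q hq hpq =>
        hmin (p, q) (Finset.mem_offDiag.2 ⟨hp, hq, hpq⟩)⟩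
    · exact ⟨1, one_pos, fun p hp q hq hpq =>
        absurd ⟨(p, q), Finset.mem_offDiag.2 ⟨hp, hq, hpq⟩⟩ hne⟩
  have hε : 0 < δ / 3 := by positivity
  have hev : ∀ᶠ k in atTop, ∀ p ∈ S, ∃ p' : ι → ℂ, (∀ i, ‖p' i - p i‖ ≤ δ / 3) ∧ Q k p' :=
    (Filter.eventually_all_finset S).2 fun p hp => h p hp _ hε
  obtain ⟨K, hK⟩ := eventually_atTop.1 hev
  refine ⟨K, fun k hk => ?_⟩
  choose! f hf using hK k hk
  have hd : ∀ p ∈ S, dist (f p) p ≤ δ / 3 := fun p hp =>
    (dist_pi_le_iff hε.le).2 fun i => by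
      rw [dist_eq_norm]
      exact (hf p hp).1 i
  refine ⟨S.image f, Finset.card_image_of_injOn ?_, ?_⟩
  · intro p hp q hq hpq
    by_contra hne
    have h1 := hsep p hp q hq hne
    have h2 := hd p hp
    have h3 := hd q hq
    have h4 : dist p q ≤ dist p (f p) + dist (f p) q := dist_triangle _ _ _
    have h5 : f p = f q := hpq
    rw [dist_comm p (f p)] at h4
    rw [← h5] at h3
    linarith
  · intro y hy
    obtain ⟨p, hp, rfl⟩ := Finset.mem_image.1 hy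
    exact (hf p hp).2

end Pool.Agent.L5helper59.DM
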