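import Pool.Agent.L5helper49.ZT.IrrField
import Pool.Agent.L5helper5.ZT.RZero
import Pool.Agent.L5helper83.ZT.RSign

/-!
# A polynomial with the sign of the permanent is a multiple of the permanent
-/

set_option autoImplicit false

open MvPolynomial Filter Topology

namespace Pool.Agent.L5helper59.DM

open Pool.Agent.L5helper88.Model Pool.Agent.L5helper59.ZT

theorem eval_perm_real (m : ℕ) (x : Fin m × Fin m → ℝ) :
    eval x (perm ℝ m) = Matrix.permanent (Matrix.of fun i j => x (i, j)) := by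
  unfold perm Matrix.permanent
  rw [map_sum]
  refine Finset.sum_congr rfl fun s _ => ?_
  rw [map_prod]
  refine Finset.prod_congr rfl fun i _ => ?_
  simp

/-- D12: the real version -/
theorem dvd_of_sign (m : ℕ) (hm : 1 ≤ m) (F : MvPolynomial (Fin m × Fin m) ℝ)
    (h1 : ∀ x : Fin m × Fin m → ℝ, 0 < Matrix.permanent (Matrix.of fun i j => x (i, j)) →
      0 < eval x F)
    (h2 : ∀ x : Fin m × Fin m → ℝ, Matrix.permanent (Matrix.of fun i j => x (i, j)) < 0 →
      eval x F < 0) :
    (Matrix.permanent (Matrix.of fun i j => X (i, j)) : MvPolynomial (Fin m × Fin m) ℝ) ∣ F := by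
  change perm ℝ m ∣ F
  by_contra hF
  have hp : Prime (perm ℝ m) := (perm_irreducible_field ℝ m hm).prime
  set v : Fin m × Fin m := (⟨0, hm⟩, ⟨0, hm⟩) with hv
  have hndvd : ¬ perm ℝ m ∣ F * pderiv v (perm ℝ m) := fun h =>
    (hp.dvd_or_dvd h).elim hF (perm_not_dvd_pderiv m hm v)
  obtain ⟨x₀, h0, hne⟩ := exists_real_zero m hm hp _ hndvd
  rw [map_mul] at hne
  have hF0 : eval x₀ F ≠ 0 := left_ne_zero_of_mul hne
  have hd0 : eval x₀ (pderiv v (perm ℝ m)) ≠ 0 := right_ne_zero_of_mul hne
  have hcont : Continuous fun x : Fin m × Fin m → ℝ => eval x F := MvPolynomial.continuous_eval F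
  rcases lt_or_gt_of_ne hF0 with hlt | hgt
  · obtain ⟨⟨x, hxU, hx⟩, -⟩ := perm_sign_change m v x₀ h0 hd0 {x | eval x F < 0}
      ((isOpen_lt hcont continuous_const).mem_nhds hlt)
    have h3 := h1 x (by rw [← eval_perm_real]; exact hx)
    have h4 : eval x F < 0 := hxU
    linarith
  · obtain ⟨-, x, hxU, hx⟩ := perm_sign_change m v x₀ h0 hd0 {x | 0 < eval x F}
      ((isOpen_lt continuous_const hcont).mem_nhds hgt)
    have h3 := h2 x (by rw [← eval_perm_real]; exact hx)
    have h4 : 0 < eval x F := hxU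
    linarith

end Pool.Agent.L5helper59.DM
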